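import Pool.Agent.W92.ET.Base

set_option autoImplicit false

namespace Pool.Agent.W274.ET

open Finset Pool.Agent.W92.ET

theorem mem_tr (A : Set ℕ) (N a : ℕ) : a ∈ tr A N ↔ (1 ≤ a ∧ a ≤ N) ∧ a ∈ A := by
  classical
  unfold tr
  rw [Finset.mem_filter, Finset.mem_Icc]

theorem RR_eq (A : Set ℕ) (N : ℕ) :
    RR (tr A N) = ∑ n ∈ Icc 1 (2 * N), (rs (tr A N) n : ℝ) / n := by
  unfold RR rs
  have hm : ∀ x ∈ Pr (tr A N), x.1 + x.2 ∈ Icc 1 (2 * N) := by
    intro x hx
    unfold Pr at hx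
    simp only [mem_filter, mem_product, mem_tr] at hx
    rw [mem_Icc]
    omega
  rw [← sum_fiberwise_of_maps_to hm]
  refine sum_congr rfl fun n _ => ?_
  rw [Finset.sum_congr rfl (g := fun _ => 1 / (n : ℝ))]
  · rw [sum_const, nsmul_eq_mul]
    ring
  · intro x hx
    rw [mem_filter] at hx
    rw [← hx.2]
    push_cast
    rfl

theorem uc_eq (A : Set ℕ) (h0 : 0 ∉ A) (N n : ℕ) (hn : n ≤ N) :
    uc A n = rs (tr A N) n + if (∃ a ∈ tr A N, 2 * a = n) then 1 else 0 := by
  classical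
  have hU : {p : ℕ × ℕ | p.1 ∈ A ∧ p.2 ∈ A ∧ p.1 ≤ p.2 ∧ p.1 + p.2 = n} =
    (((Pr (tr A N)).filter (fun x => x.1 + x.2 = n) ∪
      ((tr A N).filter (fun a => 2 * a = n)).image (fun a => (a, a)) : Finset (ℕ × ℕ)) :
        Set (ℕ × ℕ)) := by
    ext ⟨a, b⟩
    simp only [Set.mem_ofPred_eq, coe_union, Set.mem_union, mem_coe, mem_filter, mem_image, Pr,
      mem_product, mem_tr, Prod.mk.injEq]
    constructor
    · rintro ⟨ha, hb, hab, hs⟩
      have ha0 : a ≠ 0 := fun h => h0 (h ▸ ha)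
      have hb0 : b ≠ 0 := fun h => h0 (h ▸ hb)
      rcases hab.lt_or_eq with h | h
      · left
        exact ⟨⟨⟨⟨⟨by omega, by omega⟩, ha⟩, ⟨by omega, by omega⟩, hb⟩, h⟩, hs⟩
      · right
        exact ⟨a, ⟨⟨⟨by omega, by omega⟩, ha⟩, by omega⟩, rfl, h⟩
    · rintro (⟨⟨⟨⟨_, ha⟩, _, hb⟩, h⟩, hs⟩ | ⟨c, ⟨⟨_, hc⟩, h2⟩, rfl, rfl⟩)
      · exact ⟨ha, hb, h.le, hs⟩
      · exact ⟨hc, hc, le_refl _, by omega⟩
  unfold uc
  rw [hU, Set.ncard_coe_finset, card_union_of_disjoint, card_image_of_injective]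
  · congr 1
    split_ifs with h
    · obtain ⟨a, ha, h2⟩ := h
      rw [card_eq_one]
      refine ⟨a, ?_⟩
      ext b
      rw [mem_filter, mem_singleton]
      constructor
      · rintro ⟨_, h⟩; omega
      · rintro rfl; exact ⟨ha, h2⟩
    · rw [card_eq_zero, filter_eq_empty_iff]
      intro a ha h2
      exact h ⟨a, ha, h2⟩
  · intro a b hab
    exact (Prod.mk.inj hab).1
  · rw [disjoint_left]
    rintro ⟨a, b⟩ h1 h2
    simp only [mem_filter, mem_image, Pr, Prod.mk.injEq] at h1 h2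
    obtain ⟨c, _, h3, h4⟩ := h2
    have := h1.1.2
    omega

theorem rs_le_uc (A : Set ℕ) (N n : ℕ) : rs (tr A N) n ≤ uc A n := by
  unfold rs uc
  rw [← Set.ncard_coe_finset]
  apply Set.ncard_le_ncard
  · intro x hx
    simp only [mem_coe, mem_filter, Pr, mem_product, mem_tr] at hx
    exact ⟨hx.1.1.1.2, hx.1.1.2.2, hx.1.2.le, hx.2⟩
  · refine (finite_toSet (antidiagonal n)).subset ?_
    intro x hx
    simp [hx.2.2.2]

theorem rs_le (A : Set ℕ) (N n : ℕ) : rs (tr A N) n ≤ n := by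
  unfold rs
  have h : ((Pr (tr A N)).filter (fun x => x.1 + x.2 = n)).card ≤ (Icc 1 n).card := by
    apply card_le_card_of_injOn Prod.fst
    · intro x hx
      simp only [mem_coe, mem_filter, Pr, mem_product, mem_tr] at hx
      rw [mem_coe, mem_Icc]
      omega
    · intro x hx y hy hxy
      simp only [mem_coe, mem_filter] at hx hy
      ext
      · exact hxy
      · have := hx.2
        have := hy.2
        omega
  simpa using h

/-- The indicator of `n ∈ 2 A`. -/
noncomputable def ei (A : Set ℕ) (N n : ℕ) : ℝ := by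
  classical exact if (∃ a ∈ tr A N, 2 * a = n) then 1 else 0

theorem ei_nonneg (A : Set ℕ) (N n : ℕ) : 0 ≤ ei A N n := by
  unfold ei; split_ifs <;> norm_num

theorem ei_le (A : Set ℕ) (N n : ℕ) : ei A N n ≤ 1 := by
  unfold ei; split_ifs <;> norm_num

theorem sum_ei (A : Set ℕ) (N : ℕ) :
    ∑ n ∈ Icc 1 (2 * N), ei A N n / n = ∑ a ∈ tr A N, 1 / (2 * (a : ℝ)) := by
  classical
  have h1 : ∑ a ∈ tr A N, 1 / (2 * (a : ℝ)) =
      ∑ n ∈ (tr A N).image (fun a : ℕ => (2 * a : ℕ)), 1 / (n : ℝ) := by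
    rw [sum_image]
    · refine sum_congr rfl fun a _ => ?_
      push_cast
      rfl
    · intro a _ b _ h
      simp only at h
      omega
  rw [h1]
  have h2 : (tr A N).image (fun a : ℕ => (2 * a : ℕ)) =
      (Icc 1 (2 * N)).filter (fun n => ∃ a ∈ tr A N, 2 * a = n) := by
    ext n
    rw [mem_image, mem_filter, mem_Icc]
    constructor
    · rintro ⟨a, ha, rfl⟩
      have := (mem_tr A N a).1 ha
      exact ⟨by omega, a, ha, rfl⟩
    · rintro ⟨_, h⟩
      exact h
  rw [h2, sum_filter]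
  refine sum_congr rfl fun n _ => ?_
  unfold ei
  split_ifs <;> simp

theorem log_le (N : ℕ) (hN : 1 ≤ N) : Real.log N ≤ ∑ n ∈ Icc 1 N, 1 / (n : ℝ) := by
  have h := log_add_one_le_harmonic N
  rw [harmonic_eq_sum_Icc] at h
  push_cast at h
  have h2 : Real.log N ≤ Real.log ((N : ℝ) + 1) := by
    apply Real.log_le_log
    · exact_mod_cast hN
    · linarith
  have h3 : ∑ n ∈ Icc 1 N, 1 / (n : ℝ) = ∑ n ∈ Icc 1 N, ((n : ℝ))⁻¹ :=
    sum_congr rfl fun n _ => one_div _
  rw [h3]
  linarith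

theorem sum_ind_le (N : ℕ) : ∑ n ∈ Icc 1 (2 * N), (if n ≤ N then 1 / (n : ℝ) else 0) =
    ∑ n ∈ Icc 1 N, 1 / (n : ℝ) := by
  rw [← sum_filter]
  congr 1
  ext n
  rw [mem_filter, mem_Icc, mem_Icc]
  omega

theorem sum_small_le (N n₀ : ℕ) :
    ∑ n ∈ Icc 1 (2 * N), (if n < n₀ then (n : ℝ) + 3 else 0) ≤ ∑ n ∈ range n₀, ((n : ℝ) + 3) := by
  rw [← sum_filter]
  apply sum_le_sum_of_subset_of_nonneg
  · intro n hn
    rw [mem_filter] at hn
    rw [mem_range]
    exact hn.2
  · intro n _ _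
    positivity

theorem count : S_count := by
  intro A n₀ h0 hr C' hC'
  have hC0 : 0 ≤ C' := by
    have h := hC' 0
    have h1 : tr A 0 = ∅ := by
      ext a
      rw [mem_tr]
      simp only [notMem_empty, iff_false]
      omega
    rw [h1] at h
    simpa using h
  have hS0 : 0 ≤ ∑ n ∈ range n₀, ((n : ℝ) + 3) := sum_nonneg fun n _ => by positivity
  refine ⟨3 * C' / 2 + ∑ n ∈ range n₀, ((n : ℝ) + 3), fun N hN => ?_⟩
  have hE : ∑ n ∈ Icc 1 (2 * N), ei A N n / n ≤ C' / 2 := by
    rw [sum_ei]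
    have h := hC' N
    have h1 : ∑ a ∈ tr A N, 1 / (2 * (a : ℝ)) = (∑ a ∈ tr A N, 1 / (a : ℝ)) / 2 := by
      rw [sum_div]
      refine sum_congr rfl fun a _ => ?_
      rw [div_div, mul_comm]
    rw [h1]
    linarith
  have hL := log_le N hN
  rw [← sum_ind_le] at hL
  have hS := sum_small_le N n₀
  -- the relation between `rs`, `ei` and `uc`
  have key : ∀ n, n ≤ N → n₀ ≤ n →
      1 ≤ (rs (tr A N) n : ℝ) + ei A N n ∧ (rs (tr A N) n : ℝ) + ei A N n ≤ 3 := by
    intro n h1 h2
    have e1 := uc_eq A h0 N n h1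
    have e2 := hr n h2
    have e3 : (uc A n : ℝ) = (rs (tr A N) n : ℝ) + ei A N n := by
      rw [e1]
      unfold ei
      push_cast
      rfl
    rw [← e3]
    exact ⟨by exact_mod_cast e2.1, by exact_mod_cast e2.2⟩
  constructor
  · have hterm : ∀ n ∈ Icc 1 (2 * N), 1 / (n : ℝ) * ((rs (tr A N) n : ℝ) *
        ((rs (tr A N) n : ℝ) - 1)
        + if (∃ a ∈ tr A N, 2 * a = n) then (rs (tr A N) n : ℝ) else 0) ≤
        3 * ((rs (tr A N) n : ℝ) / n) - 3 * (if n ≤ N then 1 / (n : ℝ) else 0) +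
          3 * (ei A N n / n) + (if n < n₀ then (n : ℝ) + 3 else 0) := by
      intro n hn
      rw [mem_Icc] at hn
      have hn1 : (1 : ℝ) ≤ n := by exact_mod_cast hn.1
      have hn0 : (0 : ℝ) < n := by linarith
      have hinv : 1 / (n : ℝ) ≤ 1 := by rw [div_le_one hn0]; exact hn1
      have hinv0 : 0 < 1 / (n : ℝ) := by positivity
      have e1 : (if (∃ a ∈ tr A N, 2 * a = n) then (rs (tr A N) n : ℝ) else 0) =
          ei A N n * rs (tr A N) n := by
        unfold ei
        split_ifs <;> simp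
      rw [e1]
      have r0 : (0 : ℝ) ≤ rs (tr A N) n := Nat.cast_nonneg _
      have rn : (rs (tr A N) n : ℝ) ≤ n := by exact_mod_cast rs_le A N n
      have ee0 := ei_nonneg A N n
      have ee1 := ei_le A N n
      have hei : ei A N n = 0 ∨ ei A N n = 1 := by
        unfold ei; split_ifs <;> simp
      have hkey := key n
      have hrs3 : n₀ ≤ n → (rs (tr A N) n : ℝ) ≤ 3 := by
        intro h
        exact_mod_cast (rs_le_uc A N n).trans (hr n h).2
      generalize (rs (tr A N) n : ℝ) = r at *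
      generalize ei A N n = e at *
      have f1 : 3 * (r / n) = 1 / (n : ℝ) * (3 * r) := by ring
      have f2 : 3 * (e / n) = 1 / (n : ℝ) * (3 * e) := by ring
      rw [f1, f2]
      by_cases hs : n < n₀
      · rw [if_pos hs]
        have g1 : 1 / (n : ℝ) * (r * (r - 1) + e * r) ≤ n := by
          have : r * (r - 1) + e * r ≤ n * n := by nlinarith
          calc 1 / (n : ℝ) * (r * (r - 1) + e * r) ≤ 1 / (n : ℝ) * (n * n) :=
                mul_le_mul_of_nonneg_left this hinv0.le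
            _ = n := by field_simp
        have g2 : (if n ≤ N then 1 / (n : ℝ) else 0) ≤ 1 := by
          split_ifs
          · exact hinv
          · norm_num
        have g3 : 0 ≤ 1 / (n : ℝ) * (3 * r) := by positivity
        have g4 : 0 ≤ 1 / (n : ℝ) * (3 * e) := by positivity
        linarith
      · rw [if_neg hs, add_zero]
        have hs' : n₀ ≤ n := by omega
        have r3 := hrs3 hs'
        by_cases hN' : n ≤ N
        · rw [if_pos hN']
          obtain ⟨k1, k2⟩ := hkey hN' hs'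
          have g : r * (r - 1) + e * r ≤ 3 * r - 3 + 3 * e := by
            rcases hei with rfl | rfl
            · nlinarith
            · nlinarith
          calc 1 / (n : ℝ) * (r * (r - 1) + e * r) ≤ 1 / (n : ℝ) * (3 * r - 3 + 3 * e) :=
                mul_le_mul_of_nonneg_left g hinv0.le
            _ = _ := by ring
        · rw [if_neg hN']
          have g : r * (r - 1) + e * r ≤ 3 * r := by nlinarith
          have g4 : 0 ≤ 1 / (n : ℝ) * (3 * e) := by positivity
          calc 1 / (n : ℝ) * (r * (r - 1) + e * r) ≤ 1 / (n : ℝ) * (3 * r) :=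
                mul_le_mul_of_nonneg_left g hinv0.le
            _ ≤ _ := by linarith
    refine (sum_le_sum hterm).trans ?_
    rw [sum_add_distrib, sum_add_distrib, sum_sub_distrib, ← mul_sum, ← mul_sum, ← mul_sum,
      ← RR_eq]
    linarith
  · have hterm : ∀ n ∈ Icc 1 (2 * N), (if n ≤ N then 1 / (n : ℝ) else 0) - ei A N n / n -
        (if n < n₀ then (n : ℝ) + 3 else 0) ≤ (rs (tr A N) n : ℝ) / n := by
      intro n hn
      rw [mem_Icc] at hn
      have hn1 : (1 : ℝ) ≤ n := by exact_mod_cast hn.1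
      have hn0 : (0 : ℝ) < n := by linarith
      have hinv : 1 / (n : ℝ) ≤ 1 := by rw [div_le_one hn0]; exact hn1
      have hinv0 : 0 < 1 / (n : ℝ) := by positivity
      have r0 : (0 : ℝ) ≤ (rs (tr A N) n : ℝ) / n := by positivity
      have ee0 : 0 ≤ ei A N n / n := div_nonneg (ei_nonneg A N n) hn0.le
      by_cases hs : n < n₀
      · rw [if_pos hs]
        have g2 : (if n ≤ N then 1 / (n : ℝ) else 0) ≤ 1 := by
          split_ifs
          · exact hinv
          · norm_num
        linarith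
      · rw [if_neg hs, sub_zero]
        by_cases hN' : n ≤ N
        · rw [if_pos hN']
          obtain ⟨k1, k2⟩ := key n hN' (by omega)
          have : 1 / (n : ℝ) ≤ ((rs (tr A N) n : ℝ) + ei A N n) / n :=
            div_le_div_of_nonneg_right k1 hn0.le
          rw [add_div] at this
          linarith
        · rw [if_neg hN']
          linarith
    have h := sum_le_sum hterm
    rw [sum_sub_distrib, sum_sub_distrib, ← RR_eq] at h
    linarith

end Pool.Agent.W274.ET
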